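import Pool.Agent.P8H17.RB.Fin
import Pool.Agent.P8H17.RB.Low
import Pool.Agent.Helper876_Robin.LDom
import Pool.Agent.P8H44.RB.Lip

/-!
# The transition from the ball to a shell for the first Robin eigenvalue: its order is `log n`

`λ₁(Ω; α)` is the first eigenvalue of the Robin problem with parameter `α < 0`. For the ball of
radius `R` in `ℝ^n` let `a = |α| R`. If `a + a² / n < log n` the ball is the unique maximiser among
the bounded Lipschitz domains of its volume. If `a ≥ 8` and `300 a² (2 a + n) ≤ exp a`, for instance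
if `a ≥ 15 + 2 log n` (or if `a ≥ (1 + ε) log n` and `n` is large), a spherical shell of the same volume, of inner radius `R / (12 a²)`, has a strictly
larger first eigenvalue.

First part: the calibration theorem `vol_main` of `Pool/Agent/Helper876_Robin/LVol.lean` and the
estimate `TT_low`. Second part: with the radial profile `p = u'/u` of the ball, `d = p - g` with
`d = U(r₁) c (1 + 4 c r₁ log (r / r₁)) / U(r)`, `U = u² r^(n-1)`, `c > p(r₁) + |α|`, gives a
supersolution `g` on the shell; `p(r₂) - p(R)` is bounded below since `U p'` is increasing.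
Packages by helper71 (ball), helper94 (trace inequality on the shell),
helper44 (the shell is a Lipschitz domain), helper22 (lower bound for
`p'`), helper69 (increment of `p`), helper53 (volume), helper41, helper59, helper52 (numerical
inequalities).
-/

set_option autoImplicit false

open MeasureTheory Set Metric Filter Topology
open scoped ENNReal NNReal InnerProductSpace

namespace Pool.Agent.Results.MP_1c91dc_an.SharpLogThreshold

open Pool.Agent.Helper876.Rob

/-- Among the bounded Lipschitz domains with the volume of the ball of radius `R`, the ball is a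
maximiser of the first Robin eigenvalue, and every maximiser is a ball of radius `R`. -/
def BallOnly (n : ℕ) (R α : ℝ) : Prop :=
  ∀ Ω : Set (E n), IsLipschitzDomain Ω → volume Ω = volume (ball (0 : E n) R) →
    lam1 Ω α ≤ lam1 (ball (0 : E n) R) α ∧
      (lam1 Ω α = lam1 (ball (0 : E n) R) α → ∃ c : E n, Ω = ball c R)

/-- A shell `{r₁ < |x| < r₂}` with `r₁ = R / (12 α² R²)` is a Lipschitz domain with the volume of
the ball of radius `R` and a strictly larger first Robin eigenvalue. -/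
def ShellBeats (n : ℕ) (R α : ℝ) : Prop :=
  ∃ r₁ r₂ : ℝ, r₁ = R / (12 * (|α| * R) ^ 2) ∧ 0 < r₁ ∧ r₁ < r₂ ∧
    IsLipschitzDomain {x : E n | r₁ < ‖x‖ ∧ ‖x‖ < r₂} ∧
    volume {x : E n | r₁ < ‖x‖ ∧ ‖x‖ < r₂} = volume (ball (0 : E n) R) ∧
    lam1 (ball (0 : E n) R) α < lam1 {x : E n | r₁ < ‖x‖ ∧ ‖x‖ < r₂} α

theorem ballOnly_of {n : ℕ} (hn : 2 ≤ n) {R α : ℝ} (hR : 0 < R) (hα : α < 0)
    (h : |α| * R + (|α| * R) ^ 2 / n < Real.log n) : BallOnly n R α := by
  rw [abs_of_neg hα] at h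
  obtain ⟨p, hpc, hP⟩ := prof_exists n hn
  have hp1 : Prof n 1 p := by simpa using hP 1 one_pos
  obtain ⟨κ, hκ, hκ'⟩ := exists_kappa hn hp1 hR (show 0 < -α by linarith)
  have hsκ : 0 < Real.sqrt κ := Real.sqrt_pos.2 hκ
  have h1 : Real.sqrt κ * R * p (Real.sqrt κ * R) = -α * R := by
    rw [← hκ']; ring
  have hT : TT n 1 p (Real.sqrt κ * R) < 1 := by
    apply Pool.Agent.P8H17.RB.TT_low hn hp1 (by positivity)
    rw [h1]
    exact h
  intro Ω hΩ hvol
  obtain ⟨h2, h3⟩ := vol_main hn hpc hP hR hκ hκ' hT hΩ.isOpen hΩ.isBounded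
    (Pool.Agent.Helper876.LLipG.lip_fin n (by omega) Ω hΩ.isBounded hΩ.graph) hvol
  exact ⟨h2, fun heq => h3 heq (Pool.Agent.Helper876.LLipG.lip_int n Ω hΩ.isOpen hΩ.graph)⟩

theorem shellBeats_of {n : ℕ} (hn : 2 ≤ n) {R α : ℝ} (hR : 0 < R) (hα : α < 0)
    (h8 : 8 ≤ |α| * R)
    (h : 300 * (|α| * R) ^ 2 * (2 * (|α| * R) + n) ≤ Real.exp (|α| * R)) : ShellBeats n R α := by
  have habs : |α| = -α := abs_of_neg hα
  unfold ShellBeats
  rw [habs]
  rw [habs] at h8 h
  obtain ⟨r₁, r₂, h1, h2, h3, h4, h5⟩ := Pool.Agent.P8H17.RB.shell_beats hn hR hα h8 h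
  have hx : 1 ≤ 12 * (-α * R) ^ 2 := by nlinarith
  have h6 : r₁ ≤ R := by
    rw [h1]
    exact div_le_self hR.le hx
  have h12 : r₁ < r₂ := by linarith
  exact ⟨r₁, r₂, h1, h2, h12, Pool.Agent.P8H44.RB.lip n hn r₁ r₂ h2 h12, h4, h5⟩

/-- `Ω` is a maximiser of the first Robin eigenvalue among the bounded Lipschitz domains with the
volume of the ball of radius `R`. -/
def IsMaximiser (n : ℕ) (R α : ℝ) (Ω : Set (E n)) : Prop :=
  IsLipschitzDomain Ω ∧ volume Ω = volume (ball (0 : E n) R) ∧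
    ∀ Ω' : Set (E n), IsLipschitzDomain Ω' → volume Ω' = volume (ball (0 : E n) R) →
      lam1 Ω' α ≤ lam1 Ω α

/-- `αs` is a critical value as in (i), (ii) of the question, for the volume of the ball of radius
`R`: the ball is a maximiser for `αs < α < 0`, a spherical shell is one for `α < αs`. -/
def IsCritical (n : ℕ) (R αs : ℝ) : Prop :=
  αs < 0 ∧ (∀ α : ℝ, αs < α → α < 0 → IsMaximiser n R α (ball (0 : E n) R)) ∧
    (∀ α : ℝ, α < αs → ∃ (x₀ : E n) (r₁ r₂ : ℝ), 0 < r₁ ∧ r₁ < r₂ ∧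
      IsMaximiser n R α {x : E n | r₁ < ‖x - x₀‖ ∧ ‖x - x₀‖ < r₂})

/-- A critical value is not beyond a parameter at which a shell beats the ball. -/
theorem crit_le {n : ℕ} {R αs b : ℝ} (hR : 0 < R) (hb : 0 < b)
    (hS : ∀ α : ℝ, α < 0 → b ≤ |α| * R → ShellBeats n R α) (h : IsCritical n R αs) :
    |αs| * R ≤ b := by
  by_contra hcon
  push Not at hcon
  have hα : -(b / R) < 0 := by
    have := div_pos hb hR
    linarith
  have habs : |αs| = -αs := abs_of_neg h.1
  have h1 : αs < -(b / R) := by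
    rw [habs] at hcon
    have : b / R < -αs := by rwa [div_lt_iff₀ hR]
    linarith
  have h2 : b ≤ |-(b / R)| * R := by
    rw [abs_neg, abs_of_pos (div_pos hb hR)]
    exact le_of_eq (by field_simp)
  obtain ⟨r₁, r₂, -, -, -, hL, hV, hlt⟩ := hS _ hα h2
  exact absurd ((h.2.1 _ h1 hα).2.2 _ hL hV) (not_le.2 hlt)

/-- A critical value is not before a parameter at which only balls are maximisers. -/
theorem le_crit {n : ℕ} (hn : 2 ≤ n) {R αs b : ℝ} (hR : 0 < R)
    (hB : ∀ α : ℝ, α < 0 → |α| * R ≤ b → BallOnly n R α) (h : IsCritical n R αs) :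
    b ≤ |αs| * R := by
  by_contra hcon
  push Not at hcon
  have : Nontrivial (E n) := by
    have : Nonempty (Fin n) := ⟨⟨0, by omega⟩⟩
    infer_instance
  have habs : |αs| = -αs := abs_of_neg h.1
  have hb : 0 < b := by
    have : 0 < |αs| * R := by
      rw [habs]
      exact mul_pos (by linarith [h.1]) hR
    linarith
  have hα : -(b / R) < 0 := by
    have := div_pos hb hR
    linarith
  have h1 : -(b / R) < αs := by
    rw [habs] at hcon
    have : -αs < b / R := by rwa [lt_div_iff₀ hR]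
    linarith
  have h2 : |-(b / R)| * R ≤ b := by
    rw [abs_neg, abs_of_pos (div_pos hb hR)]
    exact le_of_eq (by field_simp)
  obtain ⟨x₀, r₁, r₂, h0, h12, hL, hV, hmax⟩ := h.2.2 _ h1
  obtain ⟨hle, heq⟩ := hB _ hα h2 _ hL hV
  obtain ⟨c, hc⟩ := heq (le_antisymm hle (hmax _ (ball_lipschitz hn hR) rfl))
  obtain ⟨v, hv⟩ := exists_norm_eq (E n) (show 0 ≤ (r₁ + r₂) / 2 by linarith)
  have m1 : x₀ + v ∈ {x : E n | r₁ < ‖x - x₀‖ ∧ ‖x - x₀‖ < r₂} := by
    show r₁ < ‖x₀ + v - x₀‖ ∧ ‖x₀ + v - x₀‖ < r₂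
    rw [add_sub_cancel_left, hv]
    constructor <;> linarith
  have m2 : x₀ - v ∈ {x : E n | r₁ < ‖x - x₀‖ ∧ ‖x - x₀‖ < r₂} := by
    show r₁ < ‖x₀ - v - x₀‖ ∧ ‖x₀ - v - x₀‖ < r₂
    have e : x₀ - v - x₀ = -v := by abel
    rw [e, norm_neg, hv]
    constructor <;> linarith
  rw [hc] at m1 m2
  have m3 := (convex_ball c R) m1 m2 (show (0:ℝ) ≤ 1 / 2 by norm_num)
    (show (0:ℝ) ≤ 1 / 2 by norm_num) (by norm_num)
  have e : (1 / 2 : ℝ) • (x₀ + v) + (1 / 2 : ℝ) • (x₀ - v) = x₀ := by module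
  rw [e, ← hc] at m3
  have m4 : r₁ < ‖x₀ - x₀‖ := m3.1
  rw [sub_self, norm_zero] at m4
  linarith

/-- The transition happens at `|α| R` of exact order `log n`. -/
theorem threshold :
    (∀ n : ℕ, 2 ≤ n → ∀ R α : ℝ, 0 < R → α < 0 →
      (|α| * R + (|α| * R) ^ 2 / n < Real.log n → BallOnly n R α) ∧
      (8 ≤ |α| * R → 300 * (|α| * R) ^ 2 * (2 * (|α| * R) + n) ≤ Real.exp (|α| * R) →
        ShellBeats n R α) ∧
      (15 + 2 * Real.log n ≤ |α| * R → ShellBeats n R α)) ∧
    (∀ ε : ℝ, 0 < ε → ∃ N : ℕ, ∀ n : ℕ, N ≤ n → ∀ R α : ℝ, 0 < R → α < 0 →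
      (|α| * R ≤ (1 - ε) * Real.log n → BallOnly n R α) ∧
      ((1 + ε) * Real.log n ≤ |α| * R → ShellBeats n R α)) := by
  refine ⟨fun n hn R α hR hα => ⟨ballOnly_of hn hR hα, shellBeats_of hn hR hα, fun h => ?_⟩,
    fun ε hε => ?_⟩
  · have hlog : 0 ≤ Real.log n := Real.log_nonneg (by exact_mod_cast (by omega : 1 ≤ n))
    exact shellBeats_of hn hR hα (by linarith) (Pool.Agent.P8H41.RB.num1 n hn _ h)
  · obtain ⟨N₁, hN₁⟩ := Pool.Agent.P8H59.RB.num2 ε hε
    -- `log n / n → 0`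
    have hlim : Tendsto (fun n : ℕ => Real.log n / n) atTop (𝓝 0) := by
      have h1 : Tendsto (fun x : ℝ => Real.log x / x) atTop (𝓝 0) := by
        have := Real.isLittleO_log_id_atTop.tendsto_div_nhds_zero
        simpa using this
      exact h1.comp tendsto_natCast_atTop_atTop
    have hev := hlim.eventually (gt_mem_nhds hε)
    obtain ⟨N₂, hN₂⟩ := eventually_atTop.1 hev
    refine ⟨max (max N₁ N₂) 2, fun n hn R α hR hα => ?_⟩
    have hn1 : N₁ ≤ n := (le_max_left _ _).trans ((le_max_left _ _).trans hn)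
    have hn2' : N₂ ≤ n := (le_max_right _ _).trans ((le_max_left _ _).trans hn)
    have hn2 : 2 ≤ n := (le_max_right _ _).trans hn
    have hn0 : (0:ℝ) < n := by exact_mod_cast (by omega : 0 < n)
    have hlog : 0 < Real.log n := Real.log_pos (by exact_mod_cast (by omega : 1 < n))
    constructor
    · intro h
      apply ballOnly_of hn2 hR hα
      have ha0 : 0 ≤ |α| * R := by positivity
      have h1 : |α| * R ≤ Real.log n := by nlinarith
      have h2 : (|α| * R) ^ 2 / n ≤ Real.log n * (Real.log n / n) := by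
        rw [sq, mul_div_assoc]
        gcongr
      have h3 := hN₂ n hn2'
      have h4 : Real.log n * (Real.log n / n) < Real.log n * ε :=
        mul_lt_mul_of_pos_left h3 hlog
      linarith
    · intro h
      obtain ⟨h5, h6⟩ := hN₁ n hn1 _ h
      exact shellBeats_of hn2 hR hα h5 h6

/-- **The critical value of the question is asymptotic to `log n`**: explicit ranges of
`a = |α| R` in which the ball is the only maximiser and in which a shell of the same volume beats
it, the sharp threshold `(1 ± ε) log n` for large `n`, and the bounds for a critical value. -/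
theorem result :
    (∀ n : ℕ, 2 ≤ n → ∀ R α : ℝ, 0 < R → α < 0 →
      (|α| * R + (|α| * R) ^ 2 / n < Real.log n → BallOnly n R α) ∧
      (8 ≤ |α| * R → 300 * (|α| * R) ^ 2 * (2 * (|α| * R) + n) ≤ Real.exp (|α| * R) →
        ShellBeats n R α) ∧
      (15 + 2 * Real.log n ≤ |α| * R → ShellBeats n R α)) ∧
    (∀ ε : ℝ, 0 < ε → ∃ N : ℕ, ∀ n : ℕ, N ≤ n → ∀ R α : ℝ, 0 < R → α < 0 →
      (|α| * R ≤ (1 - ε) * Real.log n → BallOnly n R α) ∧
      ((1 + ε) * Real.log n ≤ |α| * R → ShellBeats n R α)) ∧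
    (∀ n : ℕ, 2 ≤ n → ∀ R αs : ℝ, 0 < R → IsCritical n R αs →
      |αs| * R ≤ 15 + 2 * Real.log n) ∧
    (∀ ε : ℝ, 0 < ε → ∃ N : ℕ, ∀ n : ℕ, N ≤ n → ∀ R αs : ℝ, 0 < R → IsCritical n R αs →
      (1 - ε) * Real.log n ≤ |αs| * R ∧ |αs| * R ≤ (1 + ε) * Real.log n) := by
  refine ⟨threshold.1, threshold.2, fun n hn R αs hR h => ?_, fun ε hε => ?_⟩
  · have hlog : 0 ≤ Real.log n := Real.log_nonneg (by exact_mod_cast (by omega : 1 ≤ n))
    exact crit_le hR (by linarith) (fun α hα hb => (threshold.1 n hn R α hR hα).2.2 hb) h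
  · obtain ⟨N, hN⟩ := threshold.2 ε hε
    refine ⟨max N 2, fun n hn R αs hR h => ?_⟩
    have hn1 : N ≤ n := (le_max_left _ _).trans hn
    have hn2 : 2 ≤ n := (le_max_right _ _).trans hn
    have hlog : 0 < Real.log n := Real.log_pos (by exact_mod_cast (by omega : 1 < n))
    exact ⟨le_crit hn2 hR (fun α hα hb => (hN n hn1 R α hR hα).1 hb) h,
      crit_le hR (by positivity) (fun α hα hb => (hN n hn1 R α hR hα).2 hb) h⟩

end Pool.Agent.Results.MP_1c91dc_an.SharpLogThreshold



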